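import Pool.Agent.Q7.CE.Stm3
import Pool.Agent.Q285.CE.EDD
import Pool.Agent.Q285.LK.CPL

/-!
# Project CE (helper7), job FLOC: the local classes of the torsion points
-/

set_option autoImplicit false

namespace Pool.Agent.Q53.CE

open NumberField IsDedekindDomain WeierstrassCurve
open Pool.Agent.Q7.LK Pool.Agent.Q7.CE Pool.Agent.Q285.CE Pool.Agent.Q285.LK
open Pool.Agent.TH841.SH.D (Pt act)

/-! ## The isomorphism between `E_D` and `E_(D ν³)` -/

section sc

variable {K : Type*} [Field K] [CharZero K] {V V' : WeierstrassCurve K} {D D' ν : K}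

theorem sc_nons (hV : IsD V D) (hV' : IsD V' D') (hD' : D' ≠ 0) (e : D' = D * ν ^ 3) {x y : K}
    (h : V.toAffine.Nonsingular x y) : V'.toAffine.Nonsingular (ν ^ 2 * x) (ν ^ 3 * y) := by
  apply hV'.nons hD'
  have := (hV.eqn _ _).1 h.1
  rw [e]
  linear_combination ν ^ 6 * this

/-- the map `(x, y) ↦ (ν² x, ν³ y)` -/
def scf (hV : IsD V D) (hV' : IsD V' D') (hD' : D' ≠ 0) (e : D' = D * ν ^ 3) :
    V.toAffine.Point → V'.toAffine.Point
  | 0 => 0
  | .some x y h => .some (ν ^ 2 * x) (ν ^ 3 * y) (sc_nons hV hV' hD' e h)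

theorem scf_some (hV : IsD V D) (hV' : IsD V' D') (hD' : D' ≠ 0) (e : D' = D * ν ^ 3) {x y : K}
    (h : V.toAffine.Nonsingular x y) :
    scf hV hV' hD' e (.some x y h) = .some (ν ^ 2 * x) (ν ^ 3 * y) (sc_nons hV hV' hD' e h) := rfl

theorem scf_add [DecidableEq K] (hV : IsD V D) (hV' : IsD V' D') (hD' : D' ≠ 0)
    (e : D' = D * ν ^ 3) (P Q : V.toAffine.Point) :
    scf hV hV' hD' e (P + Q) = scf hV hV' hD' e P + scf hV hV' hD' e Q := by
  have hν : ν ≠ 0 := by
    rintro rfl
    apply hD'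
    rw [e, zero_pow three_ne_zero, mul_zero]
  have hν2 : ν ^ 2 ≠ 0 := pow_ne_zero 2 hν
  have hν3 : ν ^ 3 ≠ 0 := pow_ne_zero 3 hν
  rcases P with _ | ⟨x1, y1, h1⟩
  · show scf hV hV' hD' e (0 + Q) = 0 + _
    rw [zero_add, zero_add]
  rcases Q with _ | ⟨x2, y2, h2⟩
  · show scf hV hV' hD' e (_ + 0) = _ + 0
    rw [add_zero, add_zero]
  by_cases hxy : x1 = x2 ∧ y1 = -y2 - D
  · rw [hV.add_opp h1 h2 hxy, scf_some, scf_some, hV'.add_opp]
    · rfl
    · rw [hxy.1, hxy.2, e]
      exact ⟨rfl, by ring⟩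
  · obtain ⟨ℓ, X, Y, h, e1, eX, eY, hs⟩ := hV.add_ex h1 h2 hxy
    have hxy' : ¬ (ν ^ 2 * x1 = ν ^ 2 * x2 ∧ ν ^ 3 * y1 = -(ν ^ 3 * y2) - D') := by
      rintro ⟨h3, h4⟩
      refine hxy ⟨mul_left_cancel₀ hν2 h3, ?_⟩
      apply mul_left_cancel₀ hν3
      rw [h4, e]
      ring
    obtain ⟨m, X', Y', h', e', eX', eY', hs'⟩ :=
      hV'.add_ex (sc_nons hV hV' hD' e h1) (sc_nons hV hV' hD' e h2) hxy'
    have hm : m = ν * ℓ := by
      rcases hs with ⟨g1, g2⟩ | ⟨g1, g2, g3, g4⟩
      · rcases hs' with ⟨g1', g2'⟩ | ⟨g1', -⟩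
        · have h3 : (x1 - x2) * ν ^ 2 ≠ 0 := mul_ne_zero (sub_ne_zero.2 g1) hν2
          apply mul_right_cancel₀ h3
          linear_combination g2' - ν ^ 3 * g2
        · exact absurd (mul_left_cancel₀ hν2 g1') g1
      · rcases hs' with ⟨g1', -⟩ | ⟨g1', g2', g3', g4'⟩
        · exact absurd (by rw [g1]) g1'
        · apply mul_right_cancel₀ (mul_ne_zero g3 hν3)
          rw [e] at g4'
          linear_combination g4' - ν ^ 4 * g4
    rw [e1, scf_some, scf_some, scf_some, e']
    have hX : ν ^ 2 * X = X' := by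
      rw [eX, eX', hm]
      ring
    have hY : ν ^ 3 * Y = Y' := by
      rw [eY, eY', ← hX, hm, e]
      ring
    rw [Affine.Point.some.injEq]
    exact ⟨hX, hY⟩

end sc

section

variable {F : Type} [Field F]

/-- the isomorphism, on the points over `L` -/
noncomputable def scP [CharZero F] (D n : F) (L : Type) [Field L] [Algebra F L] {ν : L} (hDn : D * n ≠ 0)
    (hν : algebraMap F L n = ν ^ 3) : Pt (ED D) L →+ Pt (ED (D * n)) L :=
  letI := Classical.decEq L
  haveI : CharZero L := charZero_of_injective_algebraMap (algebraMap F L).injective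
  { toFun := scf (V := (ED D).baseChange L) (V' := (ED (D * n)).baseChange L) (isD_base D L)
      (isD_base (D * n) L) ((map_ne_zero _).2 hDn) (ν := ν) (by rw [map_mul, hν])
    map_zero' := rfl
    map_add' := scf_add (V := (ED D).baseChange L) (V' := (ED (D * n)).baseChange L) (isD_base D L)
      (isD_base (D * n) L) ((map_ne_zero _).2 hDn) (ν := ν) (by rw [map_mul, hν]) }

theorem cls_scP [CharZero F] {D n : F} {L : Type} [Field L] [Algebra F L] {ν : L} (hDn : D * n ≠ 0)
    (hν : algebraMap F L n = ν ^ 3) {P : Pt (ED D) L} {a : L} (h : Cls D L P a) :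
    Cls (D * n) L (scP D n L hDn hν P) a := by
  have hn0 : n ≠ 0 := right_ne_zero_of_mul hDn
  have hν0 : ν ≠ 0 := by
    rintro rfl
    rw [zero_pow three_ne_zero] at hν
    exact (map_ne_zero _).2 hn0 hν
  refine ⟨h.1, ?_⟩
  rcases h.2 with ⟨rfl, s, hs⟩ | ⟨⟨hp, rfl⟩, s, hs⟩ | ⟨x, y, hp, s, rfl, hy, hs, rfl⟩
  · left
    exact ⟨map_zero _, s, hs⟩
  · right; left
    constructor
    · have h0 : ((ED (D * n)).baseChange L).toAffine.Nonsingular 0 0 := by
        have hc : CharZero L := charZero_of_injective_algebraMap (algebraMap F L).injective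
        apply (isD_base (D * n) L).nons ((map_ne_zero _).2 hDn)
        ring
      refine ⟨h0, ?_⟩
      show (Affine.Point.some (ν ^ 2 * 0) (ν ^ 3 * 0) _ : ((ED (D * n)).baseChange L).toAffine.Point) =
        Affine.Point.some 0 0 _
      rw [Affine.Point.some.injEq]
      exact ⟨mul_zero _, mul_zero _⟩
    · refine ⟨s * ν, ?_⟩
      rw [map_mul, ← mul_assoc, hs, hν]
      ring
  · right; right
    have h0 : ((ED (D * n)).baseChange L).toAffine.Nonsingular (ν ^ 2 * x) (ν ^ 3 * y) := by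
      have hc : CharZero L := charZero_of_injective_algebraMap (algebraMap F L).injective
      exact sc_nons (V := (ED D).baseChange L) (V' := (ED (D * n)).baseChange L) (isD_base D L)
        (isD_base (D * n) L) ((map_ne_zero _).2 hDn) (by rw [map_mul, hν]) hp
    refine ⟨_, _, h0, s / ν, rfl, mul_ne_zero (pow_ne_zero 3 hν0) hy, div_ne_zero hs hν0, ?_⟩
    field_simp

variable [CharZero F] {ω D : F}

/-- `ω P` has the class of `P` -/
theorem cls_im (hD : D ≠ 0) (hω : ω ^ 2 + ω + 1 = 0) {L : Type} [Field L] [Algebra F L]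
    {P : Pt (ED D) L} {a : L} (h : Cls D L P a) : Cls D L (imP hD hω L P) a := by
  have hc : CharZero L := charZero_of_injective_algebraMap (algebraMap F L).injective
  refine ⟨h.1, ?_⟩
  rcases h.2 with ⟨rfl, s, hs⟩ | ⟨⟨hp, rfl⟩, s, hs⟩ | ⟨x, y, hp, s, rfl, hy, hs, rfl⟩
  · left
    exact ⟨map_zero _, s, hs⟩
  · right; left
    refine ⟨⟨hp, ?_⟩, s, hs⟩
    show (Affine.Point.some (algebraMap F L ω * 0) 0 _ : ((ED D).baseChange L).toAffine.Point) =
      Affine.Point.some 0 0 _
    rw [Affine.Point.some.injEq]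
    exact ⟨mul_zero _, rfl⟩
  · right; right
    have h0 : ((ED D).baseChange L).toAffine.Nonsingular (algebraMap F L ω * x) y := by
      apply (isD_base D L).nons ((map_ne_zero _).2 hD)
      have h1 := ((isD_base D L).eqn _ _).1 hp.1
      have h2 : algebraMap F L ω ^ 3 = 1 := by
        rw [← map_pow]
        have : ω ^ 3 = 1 := by linear_combination (ω - 1) * hω
        rw [this, map_one]
      rw [mul_pow, h2, one_mul]
      exact h1
    exact ⟨_, _, h0, s, rfl, hy, hs, rfl⟩

omit [CharZero F] in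
/-- the point `(0, y)` -/
def zp {L : Type} [Field L] [Algebra F L] (y : L)
    (h : ((ED D).baseChange L).toAffine.Nonsingular 0 y) : Pt (ED D) L := Affine.Point.some 0 y h

/-- the points with `x = 0` have finite order -/
theorem tor_zero (hD : D ≠ 0) (hω : ω ^ 2 + ω + 1 = 0) {L : Type} [Field L] [Algebra F L] {y : L}
    (h : ((ED D).baseChange L).toAffine.Nonsingular 0 y) : IsOfFinAddOrder (zp y h) := by
  set P : Pt (ED D) L := zp y h with hP
  have h1 : imP hD hω L P = P := by
    show (Affine.Point.some (algebraMap F L ω * 0) y _ : ((ED D).baseChange L).toAffine.Point) =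
      Affine.Point.some 0 y _
    rw [Affine.Point.some.injEq]
    exact ⟨mul_zero _, rfl⟩
  have h2 := imP_imP hD hω L P
  rw [h1, h1] at h2
  rw [isOfFinAddOrder_iff_nsmul_eq_zero]
  refine ⟨3, by norm_num, ?_⟩
  have h3 : (3 : ℕ) • P = P + P + P := by
    rw [show (3 : ℕ) = 1 + 1 + 1 from rfl, add_nsmul, add_nsmul, one_nsmul]
  rw [h3]
  nth_rewrite 1 [h2]
  abel

/-- the class of the point `(0, -D)` is `D` -/
theorem cls_neg (hD : D ≠ 0) (L : Type) [Field L] [Algebra F L] :
    ∃ h, Cls D L (zp (D := D) (-algebraMap F L D) h) (algebraMap F L D) := by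
  have hc : CharZero L := charZero_of_injective_algebraMap (algebraMap F L).injective
  have hD' : algebraMap F L D ≠ 0 := (map_ne_zero _).2 hD
  have h : ((ED D).baseChange L).toAffine.Nonsingular 0 (-algebraMap F L D) := by
    apply (isD_base D L).nons hD'
    ring
  refine ⟨h, hD', Or.inr (Or.inr ⟨_, _, h, -1, rfl, neg_ne_zero.2 hD', neg_ne_zero.2 one_ne_zero, ?_⟩)⟩
  ring

/-- the points of the kernel of `1 - ω` -/
theorem ker_card (hD : D ≠ 0) (hω : ω ^ 2 + ω + 1 = 0) (L : Type) [Field L] [Algebra F L] :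
    ∃ T : Finset (Pt (ED D) L), T.card ≤ 3 ∧ ∀ P, P - imP hD hω L P = 0 → P ∈ T := by
  classical
  have hc : CharZero L := charZero_of_injective_algebraMap (algebraMap F L).injective
  have hD' : algebraMap F L D ≠ 0 := (map_ne_zero _).2 hD
  have h0 : ((ED D).baseChange L).toAffine.Nonsingular 0 0 := by
    apply (isD_base D L).nons hD'
    ring
  have h1 : ((ED D).baseChange L).toAffine.Nonsingular 0 (-algebraMap F L D) := by
    apply (isD_base D L).nons hD'
    ring
  refine ⟨{0, zp 0 h0, zp (-algebraMap F L D) h1}, Finset.card_le_three, fun P hP => ?_⟩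
  rw [Finset.mem_insert, Finset.mem_insert, Finset.mem_singleton]
  rcases imP_ker hD hω L P hP with h | ⟨y, h, rfl⟩
  · exact Or.inl h
  · right
    have h2 := ((isD_base D L).eqn _ _).1 h.1
    have h3 : y * (y + algebraMap F L D) = 0 := by linear_combination h2
    rcases mul_eq_zero.1 h3 with h4 | h4
    · left
      show (Affine.Point.some 0 y _ : ((ED D).baseChange L).toAffine.Point) = Affine.Point.some 0 0 _
      rw [Affine.Point.some.injEq]
      exact ⟨rfl, h4⟩
    · right
      show (Affine.Point.some 0 y _ : ((ED D).baseChange L).toAffine.Point) =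
        Affine.Point.some 0 (-algebraMap F L D) _
      rw [Affine.Point.some.injEq]
      exact ⟨rfl, by linear_combination h4⟩

end

/-- a finite group with an endomorphism: index of the image -/
theorem index_range {G : Type*} [AddCommGroup G] [Finite G] (f : G →+ G) :
    f.range.index = Nat.card f.ker := by
  have h1 := f.ker.card_mul_index
  have h2 := f.range.card_mul_index
  rw [AddSubgroup.index_ker] at h1
  have h3 : Nat.card f.range * f.range.index = Nat.card f.range * Nat.card f.ker := by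
    rw [h2, ← h1, mul_comm]
  exact Nat.eq_of_mul_eq_mul_left Nat.card_pos h3

/-- torsion elements in different classes modulo `1 - ω` -/
theorem count_tor {A : Type*} [AddCommGroup A] (im : A →+ A) (him : ∀ x, im (im x) = -x - im x)
    (T : Finset A) (hT : ∀ x, x - im x = 0 → x ∈ T) {ι : Type*} (B : Finset ι) (P : ι → A)
    (hP : ∀ b ∈ B, IsOfFinAddOrder (P b))
    (hB : ∀ b ∈ B, ∀ b' ∈ B, ∀ R : A, P b' - P b = R - im R → b = b') : B.card ≤ T.card := by
  classical
  set S : Set A := (fun b => P b) '' (B : Set ι) ∪ (fun b => im (P b)) '' (B : Set ι) with hS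
  have hSf : S.Finite := (B.finite_toSet.image _).union (B.finite_toSet.image _)
  set G := AddSubgroup.closure S with hG
  have hStor : ∀ x ∈ S, IsOfFinAddOrder x := by
    rintro x (⟨b, hb, rfl⟩ | ⟨b, hb, rfl⟩)
    · exact hP b hb
    · exact im.isOfFinAddOrder (hP b hb)
  have hGtor : ∀ x ∈ G, IsOfFinAddOrder x := by
    have h1 : G ≤ AddCommGroup.torsion A := by
      rw [hG, AddSubgroup.closure_le]
      intro x hx
      exact hStor x hx
    intro x hx
    exact h1 hx
  have hGim : ∀ x ∈ G, im x ∈ G := by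
    intro x hx
    induction hx using AddSubgroup.closure_induction with
    | mem x hx =>
      rcases hx with ⟨b, hb, rfl⟩ | ⟨b, hb, rfl⟩
      · exact AddSubgroup.subset_closure (Or.inr ⟨b, hb, rfl⟩)
      · simp only [him]
        exact sub_mem (neg_mem (AddSubgroup.subset_closure (Or.inl ⟨b, hb, rfl⟩)))
          (AddSubgroup.subset_closure (Or.inr ⟨b, hb, rfl⟩))
    | zero => rw [map_zero]; exact zero_mem _
    | add x y _ _ hx hy => rw [map_add]; exact add_mem hx hy
    | neg x _ hx => rw [map_neg]; exact neg_mem hx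
  have hfg : AddGroup.FG G := by
    have : Finite S := hSf
    exact AddGroup.closure_finite_fg S
  have hfin : Finite G := by
    refine AddCommGroup.finite_of_fg_isAddTorsion G fun x => ?_
    have h1 := hGtor x.1 x.2
    rw [isOfFinAddOrder_iff_nsmul_eq_zero] at h1 ⊢
    obtain ⟨n, hn, h2⟩ := h1
    exact ⟨n, hn, Subtype.ext h2⟩
  let f : G →+ G :=
    { toFun := fun x => ⟨x.1 - im x.1, sub_mem x.2 (hGim x.1 x.2)⟩
      map_zero' := by
        apply Subtype.ext
        show (0 : A) - im 0 = 0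
        rw [map_zero, sub_zero]
      map_add' := fun x y => by
        apply Subtype.ext
        show (x.1 + y.1) - im (x.1 + y.1) = (x.1 - im x.1) + (y.1 - im y.1)
        rw [map_add]
        abel }
  have hker : Nat.card f.ker ≤ T.card := by
    rw [← Nat.card_eq_finsetCard T]
    refine Nat.card_le_card_of_injective (fun x : f.ker => (⟨x.1.1, ?_⟩ : T)) ?_
    · have h1 : f x.1 = 0 := x.2
      have h2 : (f x.1).1 = 0 := by rw [h1]; rfl
      exact hT _ h2
    · intro x y hxy
      apply Subtype.ext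
      apply Subtype.ext
      have h1 := congrArg (fun z : T => (z : A)) hxy
      exact h1
  have hidx : Nat.card (G ⧸ f.range) ≤ T.card := by
    have : Nat.card (G ⧸ f.range) = f.range.index := rfl
    rw [this, index_range]
    exact hker
  refine le_trans ?_ hidx
  rw [← Nat.card_eq_finsetCard]
  refine Nat.card_le_card_of_injective
    (fun b : B => ((⟨P b.1, AddSubgroup.subset_closure (Or.inl ⟨b.1, b.2, rfl⟩)⟩ : G) : G ⧸ f.range)) ?_
  intro b b' hbb
  apply Subtype.ext
  have h1 := QuotientAddGroup.eq.1 hbb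
  obtain ⟨R, hR⟩ := h1
  refine hB b.1 b.2 b'.1 b'.2 R.1 ?_
  have h2 := congrArg Subtype.val hR
  have h3 : R.1 - im R.1 = -P b.1 + P b'.1 := h2
  rw [h3]
  abel

theorem floc : S_BAS → S_CPL → S_FEND → S_FLOC := by
  intro hBAS hCPL hFEND F _ _ ω hω0 hL S
  have hf3 : Fact (Nat.Prime 3) := ⟨Nat.prime_three⟩
  have hω : ω ^ 2 + ω + 1 = 0 := by
    have h1 : (ω - 1) * (ω ^ 2 + ω + 1) = 0 := by
      have := hω0.pow_eq_one
      linear_combination this
    refine (mul_eq_zero.1 h1).resolve_left fun h2 => ?_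
    exact hω0.ne_one (by norm_num) (sub_eq_zero.1 h2)
  -- the properties of the classes
  have hcls : ∀ D : F, D ≠ 0 → ∀ (L : Type) [Field L] [Algebra F L] (P : Pt (ED D) L),
      (∃ a, Cls D L P a) ∧ (∀ a s : L, Cls D L P a → s ≠ 0 → Cls D L P (a * s ^ 3)) ∧
      (∀ a b : L, Cls D L P a → Cls D L P b → ∃ s : L, s ≠ 0 ∧ b = a * s ^ 3) ∧
      (∀ (Q : Pt (ED D) L) (a b : L), Cls D L P a → Cls D L Q b → Cls D L (P + Q) (a * b)) := by
    intro D hD L _ _ P
    obtain ⟨θ, θ', -, -, -, h, -⟩ := hFEND F ω D hω0 hD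
    obtain ⟨h1, h2, h3, h4, -⟩ := h L P
    exact ⟨h1, h2, h3, h4⟩
  refine ⟨?_, ?_, ?_, ?_, ?_, ?_, ?_⟩
  · -- ne
    intro v D a hv hD h
    by_cases hvS : v ∈ S
    · exact (h.1 hvS).1
    · exact hL.ne v D a hv hD (h.2 hvS)
  · -- mul
    intro v D a b hv hD h hb
    refine ⟨fun hvS => ?_, fun hvS => hL.mul v D a b hv hD (h.2 hvS) hb⟩
    obtain ⟨ha, P, hP, hc⟩ := h.1 hvS
    obtain ⟨hb0, s, hs⟩ := (hCPL 3 F v b).1 hb
    have hs0 : s ≠ 0 := by
      rintro rfl
      rw [zero_pow three_ne_zero, cpl_coe] at hs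
      exact (map_ne_zero _).2 hb0 hs
    refine ⟨mul_ne_zero ha hb0, P, hP, ?_⟩
    rw [cpl_coe, map_mul, ← cpl_coe, ← cpl_coe, hs]
    exact (hcls D hD _ P).2.1 _ _ hc hs0
  · -- inv
    intro v D n a hv hD hn h
    obtain ⟨hn0, ν, hν⟩ := (hCPL 3 F v n).1 hn
    refine ⟨fun hvS => ?_, fun hvS => hL.inv v D n a hv hD hn (h.2 hvS)⟩
    obtain ⟨ha, P, hP, hc⟩ := h.1 hvS
    rw [cpl_coe] at hν
    exact ⟨ha, scP D n _ (mul_ne_zero hD hn0) hν P, (scP D n _ (mul_ne_zero hD hn0) hν).isOfFinAddOrder hP,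
      cls_scP _ _ hc⟩
  · -- clo
    intro v D a hv hD h
    refine ⟨fun hvS => ?_, fun hvS => hL.clo v D a hv hD (h.2 hvS)⟩
    obtain ⟨ha, P, hP, hc⟩ := h.1 hvS
    obtain ⟨hp, hQ⟩ := cls_neg hD (v.adicCompletion F)
    refine ⟨mul_ne_zero ha hD, P + zp _ hp, hP.add (tor_zero hD hω hp), ?_⟩
    rw [cpl_coe, map_mul, ← cpl_coe v a]
    exact (hcls D hD _ P).2.2.2 _ _ _ hc hQ
  · -- pow
    intro v D a hv hD h n
    refine ⟨fun hvS => ?_, fun hvS => hL.pow v D a hv hD (h.2 hvS) n⟩
    obtain ⟨ha, P, hP, hc⟩ := h.1 hvS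
    refine ⟨pow_ne_zero n ha, n • P, hP.nsmul, ?_⟩
    rw [cpl_coe, map_pow, ← cpl_coe]
    induction n with
    | zero =>
      rw [pow_zero, zero_nsmul]
      exact ⟨one_ne_zero, Or.inl ⟨rfl, 1, by ring⟩⟩
    | succ n ih =>
      rw [pow_succ, succ_nsmul]
      exact (hcls D hD _ _).2.2.2 _ _ _ ih hc
  · -- num
    intro v D hv hD B hB hne
    by_cases hvS : v ∈ S
    · have h1 : cS S v = 0 := by
        unfold cS
        rw [if_pos hvS]
      rw [h1, zero_add, pow_one]
      classical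
      choose! P hP using fun b (hb : b ∈ B) => ((hB b hb).1 hvS).2
      obtain ⟨T, hT3, hT⟩ := ker_card hD hω (v.adicCompletion F)
      refine (count_tor (imP hD hω _) (imP_imP hD hω _) T hT B P (fun b hb => (hP b hb).1) ?_).trans hT3
      intro b hb b' hb' R hR
      by_contra hbb
      apply hne b hb b' hb' hbb
      obtain ⟨r, hr⟩ := (hcls D hD _ R).1
      have c1 := (hcls D hD _ (P b)).2.2.2 R _ _ (hP b hb).2 hr
      have c2 := (hcls D hD _ (P b')).2.2.2 (imP hD hω _ R) _ _ (hP b' hb').2 (cls_im hD hω hr)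
      have e1 : P b + R = P b' + imP hD hω _ R := by
        have : P b' = P b + (R - imP hD hω _ R) := by
          rw [← hR]
          abel
        rw [this]
        abel
      rw [e1] at c1
      obtain ⟨s, hs0, hs⟩ := (hcls D hD _ _).2.2.1 _ _ c1 c2
      have hr0 : r ≠ 0 := hr.1
      have hb0 : b ≠ 0 := ((hB b hb).1 hvS).1
      have hb0' : b' ≠ 0 := ((hB b' hb').1 hvS).1
      rw [hCPL]
      refine ⟨div_ne_zero hb0 hb0', s⁻¹, ?_⟩
      rw [cpl_coe, map_div₀, ← cpl_coe, ← cpl_coe]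
      have h2 : (b' : v.adicCompletion F) = (b : v.adicCompletion F) * s ^ 3 := by
        apply mul_right_cancel₀ hr0
        rw [hs]
        ring
      have h3 : (b' : v.adicCompletion F) ≠ 0 := by
        rw [cpl_coe]
        exact (map_ne_zero _).2 hb0'
      have h4 : (b : v.adicCompletion F) ≠ 0 := by
        rw [cpl_coe]
        exact (map_ne_zero _).2 hb0
      rw [h2]
      field_simp
    · have h1 : cS S v = dv 3 v / 2 := by
        unfold cS
        rw [if_neg hvS]
      rw [h1]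
      exact hL.num v D hv hD B (fun b hb => (hB b hb).2 hvS) hne
  · -- zero
    intro v hv
    unfold cS
    split_ifs
    · rfl
    · exact hL.zero v hv

end Pool.Agent.Q53.CE
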